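import Mathlib

open Filter Topology MeasureTheory RKHS
open scoped ENNReal symmDiff RealInnerProductSpace

namespace Pool.Agent.Results.MP_efe325_an.Equiv

/-- Vertices of the dyadic tree: the root is `[]`, the children of `x` are `b :: x`. An edge is
named by its child endpoint; `[]` names the edge `(o*, o)`. -/
abbrev T : Type := List Bool

instance : MeasurableSpace T := ⊤

/-- The edges of the geodesic `[o*, x]`. -/
def anc (x : T) : Finset T := x.tails.toFinset

/-- `d(x ∧ y)`: the number of edges common to `[o*, x]` and `[o*, y]`. -/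
def dm (x y : T) : ℤ := (anc x ∩ anc y).card

/-- The kernel `k_{(a,b)}(x,y)`. -/
def k (p q : T × T) : ℤ := dm p.1 q.1 + dm p.2 q.2 - dm p.1 q.2 - dm p.2 q.1

/-- The parent endpoint of an edge; `none` is the extra vertex `o*`. -/
def par : T → Option T
  | [] => none
  | _ :: x => some x

noncomputable def energy (F : Option T → ℝ) : ℝ≥0∞ :=
  ∑' α : T, ENNReal.ofReal ((F (some α) - F (par α)) ^ 2)

/-- Condition (a') with constant `C`. -/
def CondA (μ : Measure T) (C : ℝ≥0∞) : Prop :=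
  ∀ F : Option T → ℝ,
    ∫⁻ p, ENNReal.ofReal ((F (some p.1) - F (some p.2)) ^ 2) ∂(μ.prod μ) ≤ C * energy F

/-- Condition (b) with constant `C`, for a reproducing kernel Hilbert space `H` on `T × T`. -/
def CondB (H : Type*) [NormedAddCommGroup H] [InnerProductSpace ℝ H] [RKHS ℝ H (T × T) ℝ]
    (μ : Measure T) (C : ℝ≥0∞) : Prop :=
  ∀ G : H, ∫⁻ p, ENNReal.ofReal ((G p) ^ 2) ∂(μ.prod μ) ≤ C * ENNReal.ofReal (‖G‖ ^ 2)

instance : DiscreteMeasurableSpace T := ⟨fun _ => trivial⟩

def geo (x y : T) : Finset T := anc x ∆ anc y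

@[simp] lemma mem_anc {α x : T} : α ∈ anc x ↔ α <:+ x := by simp [anc]

lemma mem_geo {α x y : T} : α ∈ geo x y ↔ α <:+ x ∧ ¬ α <:+ y ∨ α <:+ y ∧ ¬ α <:+ x := by
  simp [geo, Finset.mem_symmDiff]

lemma not_cons_suffix (b : Bool) (x : T) : ¬ b :: x <:+ x := fun h => by
  have := h.length_le
  simp at this

lemma lint (μ : Measure T) (φ : T × T → ℝ≥0∞) :
    ∫⁻ p, φ p ∂(μ.prod μ) = ∫⁻ x, ∫⁻ y, φ (x, y) ∂μ ∂μ := by
  rw [Measure.prod_def, Measure.lintegral_bind Measurable.of_discrete.aemeasurable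
    Measurable.of_discrete.aemeasurable]
  exact lintegral_congr fun x => lintegral_map Measurable.of_discrete Measurable.of_discrete

lemma k_abs (p q : T × T) : |k p q| = (geo p.1 p.2 ∩ geo q.1 q.2).card := by
  obtain ⟨a, b⟩ := p
  obtain ⟨x, y⟩ := q
  set U := anc a ∪ anc b ∪ anc x ∪ anc y with hU
  set s : T → ℤ := fun α => ((if α <:+ a then 1 else 0) - if α <:+ b then 1 else 0) *
    ((if α <:+ x then 1 else 0) - if α <:+ y then 1 else 0) with hs
  have hd : ∀ u v, anc u ⊆ U → dm u v =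
      ∑ α ∈ U, (if α <:+ u then 1 else 0 : ℤ) * if α <:+ v then 1 else 0 := fun u v hu => by
    have : anc u ∩ anc v = U.filter fun α => α <:+ u ∧ α <:+ v := by
      ext α
      simp only [Finset.mem_inter, mem_anc, Finset.mem_filter]
      exact ⟨fun h => ⟨hu (mem_anc.2 h.1), h⟩, fun h => h.2⟩
    rw [dm, this, Finset.card_filter]
    push_cast
    refine Finset.sum_congr rfl fun α _ => ?_
    by_cases h1 : α <:+ u <;> by_cases h2 : α <:+ v <;> simp [h1, h2]
  have ha : anc a ⊆ U := fun α h => by simp only [hU, Finset.mem_union, h, true_or]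
  have hb : anc b ⊆ U := fun α h => by simp only [hU, Finset.mem_union, h, true_or, or_true]
  have hk : k (a, b) (x, y) = ∑ α ∈ U, s α := by
    simp only [k, hd a _ ha, hd b _ hb, ← Finset.sum_add_distrib, ← Finset.sum_sub_distrib]
    exact Finset.sum_congr rfl fun α _ => by simp only [hs]; ring
  have hc : ((geo a b ∩ geo x y).card : ℤ) = ∑ α ∈ U, |s α| := by
    have : geo a b ∩ geo x y = U.filter fun α => α ∈ geo a b ∧ α ∈ geo x y := by
      ext α
      simp only [Finset.mem_inter, Finset.mem_filter]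
      refine ⟨fun h => ⟨?_, h⟩, fun h => h.2⟩
      rcases mem_geo.1 h.1 with h | h
      exacts [ha (mem_anc.2 h.1), hb (mem_anc.2 h.1)]
    rw [this, Finset.card_filter]
    push_cast
    refine Finset.sum_congr rfl fun α _ => ?_
    by_cases h1 : α <:+ a <;> by_cases h2 : α <:+ b <;> by_cases h3 : α <:+ x <;>
      by_cases h4 : α <:+ y <;> simp [hs, mem_geo, h1, h2, h3, h4]
  have hsg : ∀ α β, 0 < s α → 0 ≤ s β := by
    intro α β h
    have t : ∀ u v w : T, α <:+ u → β <:+ u → ¬ α <:+ v → β <:+ v → α <:+ w → ¬ β <:+ w →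
        False := fun u v w h1 h2 h3 h4 h5 h6 =>
      (List.suffix_or_suffix_of_suffix h1 h2).elim (fun e => h3 (e.trans h4))
        fun e => h6 (e.trans h5)
    by_cases h1 : α <:+ a <;> by_cases h2 : α <:+ b <;> by_cases h3 : α <:+ x <;>
      by_cases h4 : α <:+ y <;> simp only [hs, h1, h2, h3, h4] at h <;> norm_num at h <;>
      by_cases g1 : β <:+ a <;> by_cases g2 : β <:+ b <;> by_cases g3 : β <:+ x <;>
      by_cases g4 : β <:+ y <;> simp only [hs, g1, g2, g3, g4] <;> norm_num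
    exacts [t a y x h1 g1 h4 g4 h3 g3, t x b a h3 g3 h2 g2 h1 g1, t y a b h4 g4 h1 g1 h2 g2,
      t b x y h2 g2 h3 g3 h4 g4]
  rw [hk, hc]
  by_cases h : ∃ α, 0 < s α
  · obtain ⟨α, h⟩ := h
    rw [abs_of_nonneg (Finset.sum_nonneg fun β _ => hsg α β h)]
    exact Finset.sum_congr rfl fun β _ => (abs_of_nonneg (hsg α β h)).symm
  · push Not at h
    rw [abs_of_nonpos (Finset.sum_nonpos fun β _ => h β), ← Finset.sum_neg_distrib]
    exact Finset.sum_congr rfl fun β _ => (abs_of_nonpos (h β)).symm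

lemma geo_edge {α β : T} : α ∈ geo β β.tail ↔ α = β ∧ β ≠ [] := by
  cases β with
  | nil => simp [geo]
  | cons b x =>
    simp only [mem_geo, List.tail_cons, List.suffix_cons_iff, ne_eq, reduceCtorEq,
      not_false_eq_true, and_true]
    have := not_cons_suffix b x
    constructor
    · tauto
    · rintro rfl
      tauto

lemma nil_geo (x y : T) : [] ∉ geo x y := by simp [mem_geo]

/-- Path sums from `z`. -/
def hs (z : T) (g : T → ℝ) (x : T) : ℝ := ∑ α ∈ geo z x, g α

lemma hs_grad (z : T) (g : T → ℝ) (b : Bool) (x : T) :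
    (hs z g (b :: x) - hs z g x) ^ 2 = g (b :: x) ^ 2 := by
  have h := not_cons_suffix b x
  by_cases hz : b :: x <:+ z
  · have : geo z x = insert (b :: x) (geo z (b :: x)) := by
      ext α
      by_cases e : α = b :: x
      · simp [e, mem_geo, hz, h]
      · simp [e, mem_geo, List.suffix_cons_iff]
    rw [hs, hs, this, Finset.sum_insert (by simp [mem_geo, hz])]
    ring
  · have : geo z (b :: x) = insert (b :: x) (geo z x) := by
      ext α
      by_cases e : α = b :: x
      · simp [e, mem_geo, hz]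
      · simp [e, mem_geo, List.suffix_cons_iff]
    rw [hs, hs, this, Finset.sum_insert (by simp [mem_geo, hz, h])]
    ring

lemma poinc {μ : Measure T} {C : ℝ≥0∞} (hA : CondA μ C) (z : T) (g : T → ℝ) (Z : Set T)
    (hZ : μ Set.univ ≤ 2 * μ Z) (h0 : ∀ y ∈ Z, hs z g y = 0) :
    μ Set.univ * ∫⁻ x, ENNReal.ofReal (hs z g x ^ 2) ∂μ ≤
      2 * (C * ∑' α, ENNReal.ofReal (g α ^ 2)) := by
  have h1 := hA fun o => hs z g (o.getD [])
  rw [lint] at h1
  have h2 : energy (fun o => hs z g (o.getD [])) ≤ ∑' α, ENNReal.ofReal (g α ^ 2) := by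
    refine ENNReal.tsum_le_tsum fun α => ?_
    cases α with
    | nil => simp [par]
    | cons b x => simp only [par, Option.getD_some, hs_grad, le_refl]
  calc _ ≤ 2 * μ Z * ∫⁻ x, ENNReal.ofReal (hs z g x ^ 2) ∂μ := by gcongr
    _ = 2 * ∫⁻ x, ENNReal.ofReal (hs z g x ^ 2) * μ Z ∂μ := by
      rw [lintegral_mul_const _ Measurable.of_discrete]; ring
    _ ≤ 2 * (C * energy fun o => hs z g (o.getD [])) := by
      gcongr
      refine le_trans (lintegral_mono fun x => ?_) h1
      rw [← setLIntegral_const]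
      refine le_trans (setLIntegral_mono Measurable.of_discrete fun y hy => ?_)
        (setLIntegral_le_lintegral Z _)
      simp [h0 y hy]
    _ ≤ _ := by gcongr

lemma median {μ : Measure T} {C : ℝ≥0∞} (hC : C ≠ ∞) (hA : CondA μ C) : ∃ z : T,
    μ Set.univ ≤ 2 * μ {x | z <:+ x} ∧ ∀ b, μ Set.univ ≤ 2 * μ {x | b :: z <:+ x}ᶜ := by
  by_contra hn
  push Not at hn
  have hM : μ Set.univ ≠ 0 := fun h => by
    obtain ⟨b, hb⟩ := hn [] (by simp [h])
    simp [h] at hb
  have hv : ∀ z : T, 2 * μ {x | z <:+ x}ᶜ < μ Set.univ → μ Set.univ ≤ 2 * μ {x | z <:+ x} := by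
    intro z h
    by_contra h'
    have := ENNReal.add_lt_add (not_le.1 h') h
    rw [← mul_add, measure_add_measure_compl .of_discrete, two_mul] at this
    exact lt_irrefl _ this
  have hr : ∀ n : ℕ, ∃ z : T, z.length = n ∧ 2 * μ {x | z <:+ x}ᶜ < μ Set.univ := by
    intro n
    induction n with
    | zero => exact ⟨[], rfl, by simpa [pos_iff_ne_zero] using hM⟩
    | succ n ih =>
      obtain ⟨z, h1, h2⟩ := ih
      obtain ⟨b, hb⟩ := hn z (hv z h2)
      exact ⟨b :: z, by simp [h1], hb⟩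
  choose z hl hz using hr
  have hsub : ∀ n, μ {x : T | x.length < n} ≤ μ {x | z n <:+ x}ᶜ := fun n =>
    measure_mono fun x hx h => by
      have h1 := List.IsSuffix.length_le h
      have h2 : x.length < n := hx
      rw [hl] at h1
      omega
  have hlim : μ Set.univ = ⨆ n, μ {x : T | x.length < n} := by
    have hm : Monotone fun n : ℕ => {x : T | x.length < n} :=
      fun m n h x (hx : x.length < m) => lt_of_lt_of_le hx h
    rw [← hm.measure_iUnion]
    congr 1
    exact (Set.eq_univ_of_forall fun x => Set.mem_iUnion.2 ⟨x.length + 1, by simp⟩).symm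
  have htop : μ Set.univ = ∞ := by
    by_contra ht
    have : 2 * μ Set.univ ≤ μ Set.univ := by
      nth_rw 1 [hlim]
      rw [ENNReal.mul_iSup]
      exact iSup_le fun n => le_trans (mul_le_mul_right (hsub n) 2) (hz n).le
    rw [two_mul] at this
    exact absurd (ENNReal.lt_add_right ht hM) (not_lt.2 this)
  obtain ⟨n, hn0⟩ : ∃ n, μ {x : T | x.length < n} ≠ 0 := by
    by_contra h
    push Not at h
    simp [hlim, h] at hM
  have h1 := poinc hA (z n) (fun α => if α = z n then 1 else 0) _ (hv _ (hz n)) fun y hy => by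
    simp [hs, mem_geo, show z n <:+ y from hy]
  have h2 : μ {x | z n <:+ x}ᶜ ≤
      ∫⁻ x, ENNReal.ofReal (hs (z n) (fun α => if α = z n then 1 else 0) x ^ 2) ∂μ := by
    rw [← setLIntegral_one]
    refine le_trans (setLIntegral_mono Measurable.of_discrete fun y hy => ?_)
      (setLIntegral_le_lintegral _ _)
    simp [hs, mem_geo, show ¬ z n <:+ y from hy]
  rw [tsum_eq_single (z n) fun α h => by simp [h], htop,
    ENNReal.top_mul (fun h => hn0 (le_zero_iff.1 (h ▸ (hsub n).trans h2)))] at h1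
  simp [ENNReal.mul_eq_top, hC] at h1

lemma path_bound {μ : Measure T} {C : ℝ≥0∞} (hC : C ≠ ∞) (hA : CondA μ C) (g : T → ℝ) :
    ∫⁻ p, ENNReal.ofReal ((∑ α ∈ geo p.1 p.2, g α) ^ 2) ∂(μ.prod μ) ≤
      72 * C * ∑' α, ENNReal.ofReal (g α ^ 2) := by
  obtain ⟨z, hz, hb⟩ := median hC hA
  set E := ∑' α, ENNReal.ofReal (g α ^ 2) with hE
  let g1 : Bool → T → ℝ := fun b α => if b :: z <:+ α then |g α| else 0
  let g2 : T → ℝ := fun α => if (∃ b, b :: z <:+ α) then 0 else |g α|
  have e1 : ∀ b, ∑' α, ENNReal.ofReal (g1 b α ^ 2) ≤ E := fun b =>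
    ENNReal.tsum_le_tsum fun α => by
      by_cases h : b :: z <:+ α <;> simp [g1, h]
  have e2 : ∑' α, ENNReal.ofReal (g2 α ^ 2) ≤ E :=
    ENNReal.tsum_le_tsum fun α => by
      by_cases h : ∃ b, b :: z <:+ α <;> simp only [g2, h] <;> simp
  have p1 : ∀ b, μ Set.univ * ∫⁻ x, ENNReal.ofReal (hs z (g1 b) x ^ 2) ∂μ ≤ 2 * (C * E) := by
    intro b
    refine (poinc hA z _ _ (hb b) fun y hy => Finset.sum_eq_zero fun α hα => if_neg fun h => ?_).trans
      (by gcongr; exact e1 b)
    rcases mem_geo.1 hα with h' | h'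
    exacts [not_cons_suffix b z (h.trans h'.1), hy (h.trans h'.1)]
  have p2 : μ Set.univ * ∫⁻ x, ENNReal.ofReal (hs z g2 x ^ 2) ∂μ ≤ 2 * (C * E) := by
    refine (poinc hA z _ _ hz fun y hy => Finset.sum_eq_zero fun α hα => if_pos ?_).trans
      (by gcongr)
    have hy' : z <:+ y := hy
    rcases mem_geo.1 hα with h' | h'
    · exact absurd (h'.1.trans hy') h'.2
    · obtain ⟨t, rfl⟩ := (List.suffix_or_suffix_of_suffix hy' h'.1).resolve_right h'.2
      rcases t.eq_nil_or_concat with rfl | ⟨t, b, rfl⟩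
      · exact absurd (by simp) h'.2
      · exact ⟨b, t, by simp⟩
  let W : T → ℝ≥0∞ := fun x => ENNReal.ofReal (hs z (g1 true) x ^ 2) +
    ENNReal.ofReal (hs z (g1 false) x ^ 2) + ENNReal.ofReal (hs z g2 x ^ 2)
  have hW : μ Set.univ * ∫⁻ x, W x ∂μ ≤ 6 * (C * E) := by
    simp only [W]
    rw [lintegral_add_left Measurable.of_discrete, lintegral_add_left Measurable.of_discrete,
      mul_add, mul_add]
    calc _ ≤ 2 * (C * E) + 2 * (C * E) + 2 * (C * E) := add_le_add (add_le_add (p1 _) (p1 _)) p2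
      _ = _ := by ring
  have hab : ∀ x, hs z (fun α => |g α|) x ≤ hs z (g1 true) x + hs z (g1 false) x + hs z g2 x := by
    intro x
    simp only [hs, ← Finset.sum_add_distrib]
    refine Finset.sum_le_sum fun α _ => ?_
    by_cases h1 : true :: z <:+ α <;> by_cases h2 : false :: z <:+ α <;> simp [g1, g2, h1, h2]
  have hpt : ∀ x y, ENNReal.ofReal ((∑ α ∈ geo x y, g α) ^ 2) ≤ 6 * W x + 6 * W y := by
    intro x y
    have h1 : |∑ α ∈ geo x y, g α| ≤ hs z (fun α => |g α|) x + hs z (fun α => |g α|) y := by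
      refine (Finset.abs_sum_le_sum_abs _ _).trans ?_
      rw [hs, hs, ← Finset.sum_union_inter]
      refine le_add_of_le_of_nonneg (Finset.sum_le_sum_of_subset_of_nonneg (fun α => ?_)
        fun _ _ _ => abs_nonneg _) (Finset.sum_nonneg fun _ _ => abs_nonneg _)
      simp only [Finset.mem_union, mem_geo]
      tauto
    have h2 := pow_le_pow_left₀ (abs_nonneg _) (h1.trans (add_le_add (hab x) (hab y))) 2
    rw [sq_abs] at h2
    simp only [W]
    rw [← ENNReal.ofReal_ofNat 6]
    simp (disch := positivity) only [← ENNReal.ofReal_add, ← ENNReal.ofReal_mul]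
    refine ENNReal.ofReal_le_ofReal (h2.trans ?_)
    generalize hs z (g1 true) x = a, hs z (g1 false) x = b, hs z g2 x = c,
      hs z (g1 true) y = d, hs z (g1 false) y = e, hs z g2 y = f
    nlinarith [sq_nonneg (a - b), sq_nonneg (a - c), sq_nonneg (a - d), sq_nonneg (a - e),
      sq_nonneg (a - f), sq_nonneg (b - c), sq_nonneg (b - d), sq_nonneg (b - e),
      sq_nonneg (b - f), sq_nonneg (c - d), sq_nonneg (c - e), sq_nonneg (c - f),
      sq_nonneg (d - e), sq_nonneg (d - f), sq_nonneg (e - f)]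
  rw [lint]
  calc _ ≤ ∫⁻ x, ∫⁻ y, 6 * W x + 6 * W y ∂μ ∂μ :=
        lintegral_mono fun x => lintegral_mono fun y => hpt x y
    _ = 12 * (μ Set.univ * ∫⁻ x, W x ∂μ) := by
        simp only [lintegral_add_left Measurable.of_discrete, lintegral_const,
          lintegral_const_mul _ Measurable.of_discrete,
          lintegral_mul_const _ Measurable.of_discrete]
        ring
    _ ≤ 12 * (6 * (C * E)) := by gcongr
    _ = _ := by ring

section
variable {H : Type*} [NormedAddCommGroup H] [InnerProductSpace ℝ H] [CompleteSpace H]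
  [RKHS ℝ H (T × T) ℝ]

lemma ev (p : T × T) (G : H) : ⟪kerFun H p 1, G⟫ = G p := by simp

variable (hK : ∀ p q, kernel H p q 1 = (|k p q| : ℤ))
include hK

lemma ip (p q : T × T) :
    ⟪kerFun H p 1, kerFun H q 1⟫ = ((geo p.1 p.2 ∩ geo q.1 q.2).card : ℝ) := by
  rw [ev, kerFun_apply, hK, k_abs]
  simp

lemma ip1 (α : T) (q : T × T) :
    ⟪kerFun H (α, α.tail) 1, kerFun H q 1⟫ = if α ∈ geo q.1 q.2 then (1 : ℝ) else 0 := by
  rw [ip hK]
  split_ifs with h
  · have : geo α α.tail ∩ geo q.1 q.2 = {α} := by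
      ext β
      simp only [Finset.mem_inter, geo_edge, Finset.mem_singleton]
      exact ⟨fun h => h.1.1, fun e => ⟨⟨e, fun e' => nil_geo _ _ (e' ▸ h)⟩, e ▸ h⟩⟩
    simp [this]
  · have : geo α α.tail ∩ geo q.1 q.2 = ∅ := by
      ext β
      simp only [Finset.mem_inter, geo_edge, Finset.notMem_empty, iff_false]
      exact fun h' => h (h'.1.1 ▸ h'.2)
    simp [this]

lemma ip2 (A : Finset T) (c : T → ℝ) (q : T × T) :
    ⟪∑ α ∈ A, c α • kerFun H (α, α.tail) 1, kerFun H q 1⟫ = ∑ α ∈ A ∩ geo q.1 q.2, c α := by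
  simp only [sum_inner, real_inner_smul_left, ip1 hK, mul_ite, mul_one, mul_zero]
  rw [Finset.sum_ite_mem]

lemma nrm (A : Finset T) (c : T → ℝ) :
    ‖∑ α ∈ A, c α • kerFun H (α, α.tail) 1‖ ^ 2 ≤ ∑ α ∈ A, c α ^ 2 := by
  rw [← real_inner_self_eq_norm_sq]
  rw [inner_sum]
  refine Finset.sum_le_sum fun α hα => ?_
  rw [real_inner_smul_right, ip2 hK]
  by_cases h : α = []
  · simp [h, geo, sq_nonneg]
  · have : A ∩ geo α α.tail = {α} := by
      ext β
      simp only [Finset.mem_inter, geo_edge, Finset.mem_singleton]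
      exact ⟨fun h => h.2.1, fun e => ⟨e ▸ hα, e, h⟩⟩
    simp [this, sq]

lemma rep (G : H) (p : T × T) : G p = ∑ α ∈ geo p.1 p.2, G (α, α.tail) := by
  have h1 := nrm hK (geo p.1 p.2) fun _ => 1
  have h2 := ip2 hK (geo p.1 p.2) (fun _ => 1) p
  have h3 := ip hK p p
  have h4 := norm_sub_sq_real (∑ α ∈ geo p.1 p.2, (1 : ℝ) • kerFun H (α, α.tail) 1)
    (kerFun H p 1)
  rw [real_inner_self_eq_norm_sq] at h3
  simp only [Finset.inter_self, one_pow, Finset.sum_const, nsmul_eq_mul, mul_one] at h1 h2 h3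
  have h5 : ∑ α ∈ geo p.1 p.2, (1 : ℝ) • kerFun H (α, α.tail) 1 = kerFun H p 1 := by
    rw [← sub_eq_zero, ← norm_eq_zero, ← sq_eq_zero_iff]
    exact le_antisymm (by linarith) (sq_nonneg _)
  rw [← ev p G, ← h5, sum_inner]
  simp

lemma bessel (G : H) : ∑' α : T, ENNReal.ofReal (G (α, α.tail) ^ 2) ≤ ENNReal.ofReal (‖G‖ ^ 2) := by
  rw [ENNReal.tsum_eq_iSup_sum]
  refine iSup_le fun A => ?_
  rw [← ENNReal.ofReal_sum_of_nonneg fun _ _ => sq_nonneg _]
  refine ENNReal.ofReal_le_ofReal ?_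
  have h1 := nrm hK A fun α => G (α, α.tail)
  have h2 := norm_sub_sq_real (∑ α ∈ A, G (α, α.tail) • kerFun H (α, α.tail) 1) G
  simp only [sum_inner, real_inner_smul_left, ev, ← sq] at h2
  nlinarith [sq_nonneg ‖∑ α ∈ A, G (α, α.tail) • kerFun H (α, α.tail) 1 - G‖]

end

lemma tele (F : Option T → ℝ) (x : T) :
    F (some x) = F none + ∑ α ∈ anc x, (F (some α) - F (par α)) := by
  induction x with
  | nil => simp [anc, par]
  | cons b x ih =>
    have : anc (b :: x) = insert (b :: x) (anc x) := by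
      ext α
      simp [List.suffix_cons_iff]
    rw [this, Finset.sum_insert (by simpa using not_cons_suffix b x), par]
    linarith

theorem result (H : Type*) [NormedAddCommGroup H] [InnerProductSpace ℝ H] [CompleteSpace H]
    [RKHS ℝ H (T × T) ℝ] (hK : ∀ p q, kernel H p q 1 = (|k p q| : ℤ)) (μ : Measure T) :
    ((∃ C, C ≠ ∞ ∧ CondA μ C) ↔ ∃ C, C ≠ ∞ ∧ CondB H μ C) ∧
      ∀ C, C ≠ ∞ → CondA μ C → CondB H μ (72 * C) := by
  have main : ∀ C, C ≠ ∞ → CondA μ C → CondB H μ (72 * C) := fun C hC hA G => by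
    have := path_bound hC hA fun α => G (α, α.tail)
    simp only [← rep hK G] at this
    exact this.trans (by gcongr; exact bessel hK G)
  refine ⟨⟨fun ⟨C, hC, hA⟩ => ⟨72 * C, ENNReal.mul_ne_top (by simp) hC, main C hC hA⟩,
    fun ⟨C, hC, hB⟩ => ⟨C, hC, fun F => ?_⟩⟩, main⟩
  set c : T → ℝ := fun α => |F (some α) - F (par α)| with hc
  set G : Finset T → H := fun A => ∑ α ∈ A, c α • kerFun H (α, α.tail) 1 with hG
  have h1 : ∀ p : T × T, ENNReal.ofReal ((F (some p.1) - F (some p.2)) ^ 2) ≤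
      liminf (fun A => ENNReal.ofReal (G A p ^ 2)) atTop := by
    intro p
    refine le_liminf_of_le (h := ?_)
    filter_upwards [eventually_ge_atTop (geo p.1 p.2)] with A hA
    refine ENNReal.ofReal_le_ofReal (sq_le_sq.2 (le_trans ?_ (le_abs_self _)))
    rw [← ev, real_inner_comm, ip2 hK, Finset.inter_eq_right.2 hA, tele F p.1, tele F p.2,
      add_sub_add_left_eq_sub, ← Finset.sum_sdiff_sub_sum_sdiff, geo, Finset.symmDiff_def,
      Finset.sum_union disjoint_sdiff_sdiff]
    exact (abs_sub _ _).trans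
      (add_le_add (Finset.abs_sum_le_sum_abs _ _) (Finset.abs_sum_le_sum_abs _ _))
  refine (lintegral_mono h1).trans ((lintegral_liminf_le fun _ => .of_discrete).trans
    (liminf_le_of_frequently_le' (Frequently.of_forall fun A => (hB _).trans ?_)))
  gcongr
  refine (ENNReal.ofReal_le_ofReal (nrm hK A c)).trans ?_
  rw [ENNReal.ofReal_sum_of_nonneg fun _ _ => sq_nonneg _]
  simp only [hc, sq_abs]
  exact ENNReal.sum_le_tsum A

end Pool.Agent.Results.MP_efe325_an.Equiv
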